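import Pool.Agent.H80.IR.Rays2
set_option autoImplicit false

/-!
# Multiples of an iterated torus knot and sums of other iterated torus knots

An iterated torus knot `T(p_1,q_1; ...; p_m,q_m)` is given by the list of its cabling parameters, the
last cabling first; here all `p_i` and `q_i` are at least `2`, and otherwise arbitrary. The function
`sigK` is its Tristram-Levine signature function by the formulas of Brieskorn and Litherland:
`σ_x(K_(p,q)) = σ_(px)(K) + σ_x(T(p,q))`, where `σ_x` is the signature at `exp (2 π i x)`.

Theorem. Suppose that the signature function of the iterated torus knot `K` is a linear combination with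
positive real coefficients of the signature functions of iterated torus knots `K_1, ..., K_n`, at all
but finitely many points. Then all `K_j` are equal to `K`, or `K` is `T(6,5)` or a cable with parameters
`(5,6)` (winding number `5`) of some knot, and the products of the last cabling parameters of the `K_j`
belong to `{6, 10, 15, 30}`, with weights `t, t, t, 1 - t` (`t > 0`). These knots are indeed exceptional: the
`(5,6)`-cable of `L` and `T(2,3) # L_(5,2) # T(2,3; 5,3)` have the same signature function, for every `L`.
In other words, the signature function of an iterated torus knot `K` spans an extreme ray of the convex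
cone which is generated by all these functions if and only if `K` is neither `T(6,5)` nor a `(5,6)`-cable,
and different knots give different rays.

So if a knot `K # ... # K # -K_1 # ... # -K_n` is slice (even topologically), where `K` is not exceptional,
then all `K_j` are equal to `K`, and it is a sum of knots `K # -K`, which is
ribbon. Any linear relation between at most three different signature functions is of the kind
considered here, so they are linearly independent; for four functions there can be a relation
(Livingston and Melvin).

Proof. Consider the Fourier coefficients of the jump functions. Those at `u`, `u` prime to everything,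
show that all last products are the same number `N`, or one is in the case of the products `6, 10, 15,
30`. In the first case let `d` be the least number among all last parameters and `N = d f`. The
coefficients at `d u` give `cot (π u / M_0) = A cot (π d u / f) + ∑ c_j cot (π u / M_j)` with
`A + ∑ c_j ≤ 1`, where `A` is the weight of the `K_j` whose last parameters are not `{d, f}`. If `A > 0`,
the coefficients at the next smallest number give `4 d < f`, and a comparison of the values at `u = 1`
with those at suitable units `u ≡ 1 mod M_0` shows that the `M_j` divide `M_0` or twice an odd divisor of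
`M_0`, that `2 M_0` is among them; `u = M_0 - 2` gives a contradiction. So all pairs are equal, and one can
pass to the companions. In the second case the coefficients at `2u`, `3u`, `5u` show that the last pair
of `K` is `{5,6}`. If it is `(6,5)`, those at `2 u` and `3 u` show that no `K_j` has `2` or `3` as a winding
number with a nontrivial companion and that the last pairs with product `30` are `{5,6}`; so the coefficients at
`6 u` express the one of the companion of `K` by companions of knots `K_j` of total weight at most
`1 - t < 1`, which is impossible.
-/

namespace Pool.Agent.Results.MP_752436_gt.ExtremeRays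

open Pool.Agent.H80.Sig Pool.Agent.H80.IR

/-- If the Tristram-Levine signature function of an iterated torus knot `K` (with parameters at least
`2`) is a linear combination with positive real coefficients `c i` of the signature functions of the
iterated torus knots `K' i`, at all but finitely many points, then all `K' i` are equal to `K` (and the
sum of the coefficients is `1`), or the last parameters of `K` are `(5, 6)` (winding number `5`) or `K` is
`T(6,5)`, and the last products of the `K' i` are `6, 10, 15, 30` with weights `t, t, t, 1 - t`. All these `K`
are exceptional: the second part, for every `L`. -/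
theorem result :
    (∀ (ι : Type) (S : Finset ι) (K : List (ℕ × ℕ)) (K' : ι → List (ℕ × ℕ)) (c : ι → ℝ),
      (K ≠ [] ∧ ∀ d ∈ K, Nat.Coprime d.1 d.2 ∧ 2 ≤ d.1 ∧ 2 ≤ d.2) →
      (∀ i ∈ S, K' i ≠ [] ∧ (∀ d ∈ K' i, Nat.Coprime d.1 d.2 ∧ 2 ≤ d.1 ∧ 2 ≤ d.2) ∧ 0 < c i) →
      {x : ℝ | x ∈ Set.Ioo (0 : ℝ) 1 ∧
        (sigK K x : ℝ) ≠ ∑ i ∈ S, c i * (sigK (K' i) x : ℝ)}.Finite →
      ((∀ i ∈ S, Same K (K' i)) ∧ ∑ i ∈ S, c i = 1) ∨
      (((∃ L, K = (5, 6) :: L) ∨ K = [(6, 5)]) ∧ ∃ t : ℝ, 0 < t ∧ ∀ N : ℕ,
        ∑ i ∈ S with lastProd (K' i) = N, c i =
          if N = 30 then 1 - t else if N = 6 ∨ N = 10 ∨ N = 15 then t else 0)) ∧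
    ∀ L : List (ℕ × ℕ), {x : ℝ | x ∈ Set.Ioo (0 : ℝ) 1 ∧ sigK ((5, 6) :: L) x ≠
      sigK [(2, 3)] x + sigK ((5, 2) :: L) x + sigK [(5, 3), (2, 3)] x}.Finite :=
  ⟨fun _ S K K' c hK hK' hfin => sig_rays2 S K K' c hK.1 hK.2 hK' hfin, exceptional_all⟩

end Pool.Agent.Results.MP_752436_gt.ExtremeRays
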