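import Pool.Agent.H80.IR.Sum3
set_option autoImplicit false

/-!
# An iterated torus knot is never concordant to a sum of other iterated torus knots

An iterated torus knot `T(p_1,q_1; ...; p_m,q_m)` is given by the list of its cabling parameters, the
last cabling first; here all `p_i` and `q_i` are at least `2`, and otherwise arbitrary. The function
`sigK` is its Tristram-Levine signature function by the formulas of Brieskorn and Litherland:
`σ_x(K_(p,q)) = σ_(px)(K) + σ_x(T(p,q))`, where `σ_x` is the signature at `exp (2 π i x)`.

Theorem. Let the signature functions of the iterated torus knot `K` and of the connected sum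
`K_1 # ... # K_n` of iterated torus knots agree at all but finitely many points. Then `n = 1` and
`K_1 = K`, or `n = 3` and there are (possibly trivial) iterated torus knots `L`, `A`, `B` such that, up to
order, `K = L_(5,6)`, `K_1 = T(2,3)`, `K_2 = A_(5,2)`, `K_3 = B_(5,3)`, and the signature functions of
`T(2,3) # L` and `A # B` agree at all but finitely many points; then
`g(K_1) + g(K_2) + g(K_3) = g(K) + 2`. Conversely, all these `K`, `K_1`, `K_2`, `K_3` have the property; for example
one can take `A = L`, `B = T(2,3)`.

The signature function of a slice knot vanishes at all but finitely many points, and on sums of such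
knots the invariant `τ` is the genus. So if `K # -K_1 # ... # -K_n` is smoothly slice, then `n = 1` and
`K_1 = K`, and the knot `K # -K` is ribbon: slice knots of this kind are ribbon, for any number `n` of
summands. With two knots on both sides this argument breaks down: for
`T(2,3; 2,13) # T(2,15)` and `T(2,3; 2,15) # T(2,13)` the signature functions agree (Livingston and
Melvin).

Proof. Consider the Fourier coefficients of the jump functions. Those at `u`, `u` prime to
everything, give `n = 1` or `n = 3` and last products `30 = p_m q_m`, `6`, `10`, `15`. In the second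
case, the Fourier coefficients at `2u`, `3u`, `5u` give three relations between the numbers
`cot (π u / N)` for the companions, and twisted numbers `cot (2 π u / 15)`, `cot (3 π u / 10)` for the
last parameters `{2,15}` and `{3,10}` of `K`. Odd primitive Dirichlet characters and estimates show that
these are impossible, and for `{5,6}` one is left with a relation between the jump functions of `T(2,3)`
and of the companions; the coefficients at `2u`, `3u` and `6u` show that only the winding number `5` has
nontrivial companions. The genera are found from the following theorem (`T3`): if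
`JK X (a x) = JK Y (b x) + JK Z (c x)` for all `x`, then `a g(X) = b g(Y) + c g(Z)`. In its proof the
least scales agree, one divides by them, and the point is that the last parameters of `X` and `Y` are
equal up to order; otherwise the Fourier coefficients at their least number `d` give
`cot (π u / N₁) = cot (π d u / f) + cot (π u / N₂)` for all units `u`, and there is no such identity
(`S_STAR`).
-/

namespace Pool.Agent.Results.MP_752436_gt.Irreducible

open Pool.Agent.H80.Sig Pool.Agent.H80.IR

/-- If the Tristram-Levine signature function of an iterated torus knot `K` (with parameters at least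
`2`) is the sum of the signature functions of the iterated torus knots `K' i`, `i < n`, at all but
finitely many points, then `n = 1` and the two knots are the same, or `n = 3`, `K` is the `(5,6)`-cable of
some `L`, the `K' i` are the trefoil, the `(5,2)`-cable of some `A` and the `(5,3)`-cable of some `B` (trivial
knots are allowed for `L`, `A`, `B`), and the functions of `T(2,3) # L` and `A # B` agree. The
genus is not additive in this case. Conversely, if these agree, so do those of the cables. The last part: there
are different pairs of such knots for which the sums of the signature functions agree. -/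
theorem result :
    (∀ (K : List (ℕ × ℕ)) (n : ℕ) (K' : Fin n → List (ℕ × ℕ)),
      (K ≠ [] ∧ ∀ c ∈ K, Nat.Coprime c.1 c.2 ∧ 2 ≤ c.1 ∧ 2 ≤ c.2) →
      (∀ i, K' i ≠ [] ∧ ∀ c ∈ K' i, Nat.Coprime c.1 c.2 ∧ 2 ≤ c.1 ∧ 2 ≤ c.2) →
      {x : ℝ | x ∈ Set.Ioo (0 : ℝ) 1 ∧ sigK K x ≠ ∑ i, sigK (K' i) x}.Finite →
      (n = 1 ∧ ∀ i, Same K (K' i)) ∨
      (n = 3 ∧ ∃ i j k : Fin n, i ≠ j ∧ i ≠ k ∧ j ≠ k ∧ (K' i = [(2, 3)] ∨ K' i = [(3, 2)]) ∧
        ∃ L A B : List (ℕ × ℕ), (K = (5, 6) :: L ∨ K = [(6, 5)] ∧ L = []) ∧
        (K' j = (5, 2) :: A ∨ K' j = [(2, 5)] ∧ A = []) ∧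
        (K' k = (5, 3) :: B ∨ K' k = [(3, 5)] ∧ B = []) ∧
        {x : ℝ | x ∈ Set.Ioo (0 : ℝ) 1 ∧
          sigK [(2, 3)] x + sigK L x ≠ sigK A x + sigK B x}.Finite ∧
        ∑ i, gen2 (K' i) = gen2 K + 4)) ∧
    (∀ L A B : List (ℕ × ℕ), {x : ℝ | x ∈ Set.Ioo (0 : ℝ) 1 ∧
        sigK [(2, 3)] x + sigK L x ≠ sigK A x + sigK B x}.Finite →
      {x : ℝ | x ∈ Set.Ioo (0 : ℝ) 1 ∧ sigK ((5, 6) :: L) x ≠
        sigK [(2, 3)] x + sigK ((5, 2) :: A) x + sigK ((5, 3) :: B) x}.Finite) ∧
    ∀ x : ℝ, sigK [(2, 13), (2, 3)] x + sigK [(2, 15)] x =
      sigK [(2, 15), (2, 3)] x + sigK [(2, 13)] x :=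
  ⟨fun K n K' hK hK' hfin => SEV.sum_thm2 K n K' hK.1 hK.2 hK' hfin,
    fun L A B h => exceptional_conv L A B h, fun x => by simp only [sigK]; ring⟩

end Pool.Agent.Results.MP_752436_gt.Irreducible
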