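import Pool.Agent.H80.Sig.Last
set_option autoImplicit false

/-!
# Connected sums of iterated torus knots: the products of the last cabling parameters

An iterated torus knot `T(p_1,q_1; ...; p_n,q_n)` is given by the list of its cabling parameters, the
last cabling first; here all `p_i` and `q_i` are at least `2`, and otherwise arbitrary. The function
`sigK` is its Tristram-Levine signature function by the formulas of Brieskorn and Litherland:
`σ_x(K_(p,q)) = σ_(px)(K) + σ_x(T(p,q))`, where `σ_x` is the signature at `exp (2 π i x)`.

Theorem. In every linear relation `∑ a_k σ(K_k) = 0` (at all but finitely many points) between the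
signature functions of iterated torus knots, the sum of the coefficients of the knots with
`p_n q_n = N` is zero for every `N` different from `6, 10, 15, 30`, and for `N = 6, 10, 15, 30` these
sums are `-t, -t, -t, t` for some `t`. The exception occurs:
`σ(T(5,6)) = σ(T(2,3)) + σ(T(2,5)) + σ(T(2,3;5,3))`.

The signature function of a slice knot vanishes at all but finitely many points. So in a slice
connected sum of iterated torus knots and their mirror images (with all parameters at least `2`) the
last products `p_n q_n` different from `6, 10, 15, 30` cancel. As the sum of all coefficients is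
`-2 t`, the number of summands is even; for instance no connected sum of three iterated torus knots
and mirror images is slice, so that the slice-ribbon question for connected sums of at most three
such knots is reduced to the sums `K # -K`, which are ribbon.

Proof. The Fourier coefficients at `u`, `u` prime to everything, of the jump functions give
`∑ a_k cot (π u / N_k) = 0`, `N_k = p_n q_n` for `K_k`. All linear relations between the numbers
`cot (π / N)`, where `N` is not a prime power, are multiples of
`cot (π / 30) = cot (π / 6) + cot (π / 10) + cot (π / 15)`: sum over `u` with an odd primitive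
character modulo the largest `N` (or `N / 2` if `N` is `2` modulo `4`) and use `L(1, χ) ≠ 0`; if
`N / 2` is odd one needs two odd primitive characters modulo `N / 2` with different values at `2`,
and they exist unless `N / 2` is `1, 3` or `15`; there is no odd primitive character modulo `12`.
-/

namespace Pool.Agent.Results.MP_752436_gt.LastProducts

open Pool.Agent.H80.Sig

/-- In every linear relation between the signature functions of iterated torus knots (with parameters
at least `2`), the sum of the coefficients of the knots whose last cabling parameters have the
product `N` vanishes for all `N` except `6, 10, 15, 30`, where these sums are `-t, -t, -t, t`. The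
exception occurs for `T(5,6)` and `T(2,3)`, `T(2,5)`, `T(2,3;5,3)`. -/
theorem result :
    (∀ (ι : Type) (S : Finset ι) (a : ι → ℝ) (K : ι → List (ℕ × ℕ)),
      (∀ k ∈ S, ∀ c ∈ K k, Nat.Coprime c.1 c.2 ∧ 2 ≤ c.1 ∧ 2 ≤ c.2) →
      {x : ℝ | x ∈ Set.Ioo (0 : ℝ) 1 ∧ ∑ k ∈ S, a k * (sigK (K k) x : ℝ) ≠ 0}.Finite →
      ∃ t : ℝ, ∀ N : ℕ, N ≠ 0 → ∑ k ∈ S with lastProd (K k) = N, a k =
        if N = 30 then t else if N = 6 ∨ N = 10 ∨ N = 15 then -t else 0) ∧
    {x : ℝ | x ∈ Set.Ioo (0 : ℝ) 1 ∧ sigK [(5, 6)] x ≠
      sigK [(2, 3)] x + sigK [(2, 5)] x + sigK [(5, 3), (2, 3)] x}.Finite :=
  ⟨fun _ S a K hK hfin => last_products S a K hK hfin, exceptional⟩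

end Pool.Agent.Results.MP_752436_gt.LastProducts
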