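import Pool.Agent.H80.Sig.OddAll
set_option autoImplicit false

/-!
# Iterated torus knots with odd parameters: all signature relations are formal

An iterated torus knot `T(p_1,q_1; ...; p_n,q_n)` is given by the list of its cabling parameters, the
last cabling first. Its Tristram-Levine signature function `sigK` is, by the formulas of Brieskorn and
Litherland, the sum over `i` of the functions `x ↦ σ_(P x)(T(p_i,q_i))`, where `P = p_(i+1) ... p_n`.
The triples `(min p_i q_i, max p_i q_i, P)` are called the symbols of the knot (list `syms`). A linear
relation between signature functions is called formal if all symbols `(p, q, P)` with `p, q > 1`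
cancel in it (for example the relation of Livingston and Melvin between `T(2,3; 2,13)`, `T(2,13)`,
`T(2,3; 2,15)` and `T(2,15)`).

Theorem. Consider iterated torus knots whose cabling parameters are pairs `(P, 1)` with arbitrary `P`,
and pairs `(p, q)` of odd coprime numbers such that

* `p` or `q` is a prime power, or
* the smaller one of `p` and `q` is smaller than some prime power exactly dividing the larger one.

Then all linear relations between their signature functions (modulo functions vanishing at all but
finitely many points) are formal.

The condition on the pairs holds for all coprime odd `p, q > 1` such that `p q` has at most three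
different prime factors, and for all with `p q < 1155`. No uniqueness is assumed: there may be symbols
`(p, q, P) ≠ (p', q', P)` with `p q = p' q'`. For even parameters the statement is false, because of
`σ(T(5,6)) = σ(T(2,3)) + σ(T(2,5)) + σ(T(2,3; 5,3))`.

So if a connected sum of such knots and their mirror images is slice, then all symbols cancel. If every
knot is a `(P,1)`-cable of a torus knot (with odd `p`, `q` as above), it is a sum of knots `K # -K`,
hence ribbon; so these cables are linearly independent in the concordance group.

Proof. Let `L` be the largest number `P p q` of a symbol which does not cancel. On the points `k / L`,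
`k` prime to `L`, only the symbols with `P p q = L` contribute, and the jump of the signature function
of `T(p,q)` at `k / (p q)` is `s(k / (p q)) - s(k q' / p) - s(k p' / q)`, where `s(x) = 2 {x} - 1` and
`q' q = 1` modulo `p`, `p' p = 1` modulo `q`. For an odd primitive character `χ` modulo `f` the sum of
`χ(k) s(k / f)` is not zero, as `L(χ,1) ≠ 0`. Let `M` be the largest number occurring as `p` or `q`.
Characters modulo `D > M` show that the sum of the coefficients `c(p,q)` with `p q = D` is zero, and
those modulo `M` give `C = ∑ c(r,M) χ(r)`, with `C = ∑ c(p,q)` over `p q = M`, `r < M`, for all odd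
primitive `χ` modulo `M`. Let `r` be the largest number with `c(r,M) ≠ 0`. If `r` is smaller than a
prime power `l^v` exactly dividing `M ≠ l^v`, one can choose, for each prime `t` dividing `M`, a number
`u_t = 1` modulo `M / t` such that none of the products of `r` with some of the `u_t` is congruent to
`± n` with `n ≤ r` odd and prime to `M`, apart from `r` itself. Applying the product of the operators
`1 - u_t` to the relation one gets `c(r,M) = 0`. If `M` is a prime power, or `r` is one and larger than
the prime powers exactly dividing `M`, then `(r, M)` is the only pair with product `r M`, so that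
`c(r,M) = 0` as well.
-/

namespace Pool.Agent.Results.MP_752436_gt.OddParameters

open Pool.Agent.H80.Sig

/-- All linear relations between the signature functions of iterated torus knots are formal, if the
parameters `(p, q)` of each cabling with `p, q > 1` are odd, and one of them is a prime power or the
smaller one is smaller than a prime power exactly dividing the larger one. -/
theorem result {ι : Type*} (S : Finset ι) (a : ι → ℝ) (K : ι → List (ℕ × ℕ))
    (hK : ∀ k ∈ S, ∀ c ∈ K k, Nat.Coprime c.1 c.2 ∧ 0 < c.1 ∧
      (1 < c.1 → 1 < c.2 → Odd c.1 ∧ Odd c.2 ∧ (IsPrimePow c.1 ∨ IsPrimePow c.2 ∨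
        ∃ l : ℕ, l.Prime ∧ min c.1 c.2 < l ^ (max c.1 c.2).factorization l)))
    (hfin : {x : ℝ | x ∈ Set.Ioo (0 : ℝ) 1 ∧ ∑ k ∈ S, a k * (sigK (K k) x : ℝ) ≠ 0}.Finite)
    (p q P : ℕ) (hp : 1 < p) : ∑ k ∈ S, a k * ((syms (K k) 1).count (p, q, P) : ℝ) = 0 := by
  have hCop : ∀ k ∈ S, Cop (K k) := fun k hk c hc => ⟨(hK k hk c hc).1, (hK k hk c hc).2.1⟩
  have hR := rel_of_sig S a K hCop hfin
  have hsy : ∀ (L : List (ℕ × ℕ)), (∀ c ∈ L, 1 < c.1 → 1 < c.2 → Odd c.1 ∧ Odd c.2 ∧
      (IsPrimePow c.1 ∨ IsPrimePow c.2 ∨
        ∃ l : ℕ, l.Prime ∧ min c.1 c.2 < l ^ (max c.1 c.2).factorization l)) → ∀ Q : ℕ,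
      ∀ s ∈ syms L Q, 1 < s.1 → Odd s.1 ∧ Odd s.2.1 ∧ Dom s.1 s.2.1 := by
    intro L
    induction L with
    | nil => intro _ Q s hs; simp [syms] at hs
    | cons c L ih =>
      obtain ⟨x, y⟩ := c
      intro h Q s hs h1
      simp only [syms, List.mem_cons] at hs
      rcases hs with rfl | hs
      · simp only at h1
        have h2 : 1 < x := lt_of_lt_of_le h1 (min_le_left x y)
        have h3 : 1 < y := lt_of_lt_of_le h1 (min_le_right x y)
        obtain ⟨h4, h5, h6⟩ := h (x, y) (by simp) h2 h3
        simp only at h4 h5 h6
        refine ⟨?_, ?_, ?_⟩
        · rcases le_total x y with h7 | h7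
          · simpa [min_eq_left h7] using h4
          · simpa [min_eq_right h7] using h5
        · rcases le_total x y with h7 | h7
          · simpa [max_eq_right h7] using h5
          · simpa [max_eq_left h7] using h4
        · unfold Dom
          simp only
          rcases h6 with h6 | h6 | h6
          · rcases le_total x y with h7 | h7
            · left; rw [min_eq_left h7]; exact h6
            · right; left; rw [max_eq_left h7]; exact h6
          · rcases le_total x y with h7 | h7
            · right; left; rw [max_eq_right h7]; exact h6
            · left; rw [min_eq_right h7]; exact h6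
          · right; right; exact h6
      · exact ih (fun c hc => h c (by simp [hc])) (x * Q) s hs h1
  have hG : ∀ s ∈ occ S K, Good s ∧ s.1 < s.2.1 ∧ Odd s.1 ∧ Odd s.2.1 ∧ Dom s.1 s.2.1 := by
    intro s hs
    obtain ⟨g1, g2⟩ := occ_good hCop s hs
    obtain ⟨⟨k, hk, h2⟩, h1⟩ := mem_occ.1 hs
    obtain ⟨g3, g4, g5⟩ := hsy (K k) (fun c hc => (hK k hk c hc).2.2) 1 s h2 h1
    exact ⟨g1, g2, g3, g4, g5⟩
  have key := dom_indep hG hR
  by_cases hmem : (p, q, P) ∈ occ S K
  · exact key _ hmem
  · exact wt_eq_zero a hp hmem

end Pool.Agent.Results.MP_752436_gt.OddParameters
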